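import Mathlib
import Pool.Agent.Helper31.Spectra
import Pool.Agent.Helper31.ShelahCore
import Pool.Agent.Helper31.ShelahSyntax
import Pool.Agent.Helper31.ShelahClosed

set_option autoImplicit false

namespace Pool.Agent.Results.MP_8d783e_lc.ShelahClass

open FirstOrder FirstOrder.Language
open Pool.Agent.Helper31.Spectra Pool.Agent.Helper31.ShelahSyntax Pool.Agent.Helper31.ShelahClosed

/-- A sentence of Shelah's class: the vocabulary is finite and its only function symbols are
constants and at most one unary function symbol (the relation symbols are arbitrary), and the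
sentence has the form `∃ … ∃ ∀ χ` with `χ` an existential formula, that is
`∃ … ∃ ∀ ∃ … ∃ θ` with `θ` quantifier-free (with equality). -/
def ShelahSentence (L : FirstOrder.Language.{0, 0}) (φ : L.Sentence) : Prop :=
  Finite (Σ n, L.Functions n) ∧ Finite (Σ n, L.Relations n) ∧
    Subsingleton (L.Functions 1) ∧ (∀ n, IsEmpty (L.Functions (n + 2))) ∧
    ∃ (a : ℕ) (χ : L.BoundedFormula Empty (a + 1)), χ.IsExistential ∧ φ = χ.all.exs

lemma isEAE_exs {L : FirstOrder.Language.{0, 0}} :
    ∀ {n : ℕ} (ψ : L.BoundedFormula Empty n), IsEAE ψ → IsEAE (n := 0) ψ.exs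
  | 0, _, h => h
  | _ + 1, ψ, h => isEAE_exs ψ.ex (IsEAE.ex h)

lemma shelah_LF {a : ℕ} (θ : LF.BoundedFormula Empty (a + 1)) (hθ : θ.IsQF) :
    ShelahSentence LF θ.all.exs := by
  refine ⟨?_, ?_, ?_, ?_, a, θ, hθ.isExistential, rfl⟩
  · have : Function.Injective (fun _ : Σ n, LF.Functions n => ()) := by
      rintro ⟨n, f⟩ ⟨m, g⟩ _
      cases f
      cases g
      rfl
    exact Finite.of_injective _ this
  · have : IsEmpty (Σ n, LF.Relations n) := ⟨fun z => z.2.elim⟩
    infer_instance
  · refine ⟨fun f g => ?_⟩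
    cases f
    cases g
    rfl
  · intro n
    refine ⟨fun f => ?_⟩
    cases f

/-- **Asser's problem for Shelah's class.** The spectrum of every sentence of Shelah's class is
ultimately periodic, and its complement is again the spectrum of a sentence of Shelah's
class. -/
theorem result (L : FirstOrder.Language.{0, 0}) (φ : L.Sentence) (hφ : ShelahSentence L φ) :
    (∃ N p : ℕ, 0 < p ∧ ∀ n : ℕ, N ≤ n →
      ((∃ (M : Type) (_ : L.Structure M), Nat.card M = n ∧ φ.Realize M) ↔
        (∃ (M : Type) (_ : L.Structure M), Nat.card M = n + p ∧ φ.Realize M))) ∧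
    ∃ (L' : FirstOrder.Language.{0, 0}) (ψ : L'.Sentence), ShelahSentence L' ψ ∧
      ∀ n : ℕ,
        (0 < n ∧ ∃ (M : Type) (_ : L'.Structure M), Nat.card M = n ∧ ψ.Realize M) ↔
          (0 < n ∧ ¬ ∃ (M : Type) (_ : L.Structure M), Nat.card M = n ∧ φ.Realize M) := by
  obtain ⟨hfun, hrel, hone, htwo, a, χ, hχ, rfl⟩ := hφ
  obtain ⟨B, p, hp, hB⟩ := spec_step ⟨hone, htwo⟩ ⟨hfun, hrel⟩
    (isEAE_exs χ.all (IsEAE.all hχ))
  obtain ⟨N, hN⟩ := eventually_periodic _ B p hp hB
  constructor
  · refine ⟨N + 1, p, hp, fun n hn => ?_⟩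
    have h := hN n (by omega)
    constructor
    · intro h1
      exact (h.1 ⟨by omega, h1⟩).2
    · intro h1
      exact (h.2 ⟨by omega, h1⟩).2
  · obtain ⟨b, θ, hθ, hspec⟩ := exists_sentence {n | 0 < n ∧ n ∉ Spec L χ.all.exs} (by simp)
      (N + 1) p hp (by
        intro n hn
        have := hN n (by omega)
        simp only [Set.mem_ofPred_eq]
        rw [this]
        constructor
        · rintro ⟨_, h⟩; exact ⟨by omega, h⟩
        · rintro ⟨_, h⟩; exact ⟨by omega, h⟩)
    refine ⟨LF, θ.all.exs, shelah_LF θ hθ, fun n => ?_⟩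
    have h := Set.ext_iff.1 hspec n
    constructor
    · intro h1
      obtain ⟨h2, h3⟩ := h.1 h1
      exact ⟨h2, fun h4 => h3 ⟨h2, h4⟩⟩
    · rintro ⟨h1, h2⟩
      exact h.2 ⟨h1, fun h3 => h2 h3.2⟩

end Pool.Agent.Results.MP_8d783e_lc.ShelahClass
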